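import Pool.Agent.H16.ORS.W

/-! Board `ors`, row `FAC` (MP_5182ad_lc): the facts of a world. -/

open Polynomial Finset
open Pool.ORB (Ad pre str Wo Enu Acc Tr inl al un LL AgO pair OM PT NP UP coUP Sig S2 PH AdvL S2L
  Fct FS Fn Val ans Hp Tp Np Sp)

namespace Pool.ORS

namespace FAC1

theorem mem_fac (EE : Finset Ad) (ω' : Wo) (f : Fct {e // e ∈ EE} (List Bool)) :
    f ∈ fac EE ω' ↔ ω' f.1.1 = some (f.2.1, f.2.2) := by
  classical
  unfold fac
  rw [Finset.mem_biUnion]
  constructor
  · rintro ⟨e, -, he⟩
    cases h : ω' e.1 with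
    | none =>
      rw [h] at he
      simp at he
    | some wb =>
      obtain ⟨w, b⟩ := wb
      rw [h] at he
      simp only [Finset.mem_singleton] at he
      subst he
      exact h
  · intro h
    refine ⟨f.1, Finset.mem_univ _, ?_⟩
    rw [h]
    simp

theorem ans_fac (EE : Finset Ad) (ω' : Wo) (e : {e // e ∈ EE}) (w : List Bool) (b : Bool) :
    ans (fac EE ω') e w = some b ↔ ω' e.1 = some (w, b) := by
  classical
  have m1 := mem_fac EE ω' (e, w, true)
  have m2 := mem_fac EE ω' (e, w, false)
  unfold ans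
  by_cases h1 : (e, w, true) ∈ fac EE ω'
  · rw [if_pos h1, m1.1 h1]
    constructor
    · intro h
      rw [Option.some_inj] at h
      rw [h]
    · intro h
      rw [Option.some_inj, Prod.mk.injEq] at h
      exact congrArg some h.2
  · rw [if_neg h1]
    by_cases h2 : (e, w, false) ∈ fac EE ω'
    · rw [if_pos h2, m2.1 h2]
      constructor
      · intro h
        rw [Option.some_inj] at h
        rw [h]
      · intro h
        rw [Option.some_inj, Prod.mk.injEq] at h
        exact congrArg some h.2
    · rw [if_neg h2]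
      constructor
      · intro h
        exact absurd h (by simp)
      · intro h
        cases b
        · exact absurd (m2.2 h) h2
        · exact absurd (m1.2 h) h1

end FAC1

open FAC1 in
theorem fac_row (hS : STRStmt) : FACStmt := by
  classical
  refine ⟨mem_fac, ?_, ans_fac, ?_⟩
  · intro EE ω' f hf g hg he
    rw [mem_fac] at hf hg
    rw [he, hg, Option.some_inj, Prod.mk.injEq] at hf
    exact Prod.ext he (Prod.ext hf.1.symm hf.2.symm)
  · intro en ω n τ S EE ω' hEE hE s hs
    obtain ⟨_, hagr, hrow, _⟩ := hE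
    have key : ∀ e w b, w.length = nl en e → (str e w b).length ≤ τ →
        ((e ∉ EE ∧ ω' e = some (w, b)) ↔ (e ∉ EE ∧ lev en e ≤ n ∧ ω e = some (w, b))) := by
      intro e w b hw hl
      rw [hS.1 en e w b hw] at hl
      constructor
      · rintro ⟨he, h⟩
        rcases Nat.lt_or_ge n (lev en e) with hn | hn
        · exfalso
          by_cases h0 : e.1 = 0
          · rw [hrow e h0 he hn] at h
            exact absurd h (by simp)
          · exact he ((hEE e).2 (Or.inr ⟨h0, hn, hl⟩))
        · refine ⟨he, hn, ?_⟩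
          rw [hagr e hn]
          exact h
      · rintro ⟨he, hn, h⟩
        refine ⟨he, ?_⟩
        rw [← hagr e hn]
        exact h
    constructor
    · rintro ⟨e, w, b, hw, rfl, h⟩
      refine ⟨e, w, b, ?_, hw, rfl⟩
      rcases h with ⟨he, h⟩ | h
      · exact (ans_fac EE ω' ⟨e, he⟩ w b).1 h
      · exact ((key e w b hw hs).2 h).2
    · rintro ⟨e, w, b, h, hw, rfl⟩
      refine ⟨e, w, b, hw, rfl, ?_⟩
      by_cases he : e ∈ EE
      · exact Or.inl ⟨he, (ans_fac EE ω' ⟨e, he⟩ w b).2 h⟩
      · exact Or.inr ((key e w b hw hs).1 ⟨he, h⟩)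

end Pool.ORS
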